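import Pool.Agent.Y774.KC.Top
import Pool.Agent.H294R2.BF.L1
import Pool.Agent.Results.MP_e8ee11_co.BeckFialaIterFree

/-!
# The number of colourings of small discrepancy of set systems of bounded degree

Let `S` be a system of `m` subsets of an `n`-element set of maximum degree at most `t`.

(1) If the traces of the system on all subsets of the ground set have discrepancy at most `B`, then
for every `D > 0` at least `2^n exp (-15200 n / D²)` colourings have discrepancy at most
`B + D √t`.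

(2) So, for all `m`, `n`, `t` and `D > 0`, at least `2^n exp (-15200 n / D²)` colourings have
discrepancy at most `t + D √t`, and at most `C (√t + (1 + log t)^{3/2} √(log (1 + min m n))) + D √t`.

(3) The Beck-Fiala conjecture holds if and only if there is a constant `C` such that for all set
systems of maximum degree at most `t` and all `D ≥ C` at least `2^n exp (-C n / D²)` colourings
have discrepancy at most `D √t`.
-/

set_option autoImplicit false

namespace Pool.Agent.Results.MP_e8ee11_co.ColouringsCount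

/-- Every element is in at most `t` of the sets `S_1, …, S_m`. -/
def DegreeLE {m n : ℕ} (S : Fin m → Finset (Fin n)) (t : ℕ) : Prop :=
  ∀ i, (Finset.univ.filter (fun j => i ∈ S j)).card ≤ t

/-- The number of colourings `χ : [n] → {-1, 1}` of discrepancy at most `R`. -/
noncomputable def count {m n : ℕ} (S : Fin m → Finset (Fin n)) (R : ℝ) : ℕ :=
  Nat.card {χ : Fin n → ℤˣ // ∀ j, |∑ i ∈ S j, ((χ i : ℤ) : ℝ)| ≤ R}

theorem units_real (u : ℤˣ) : ((u : ℤ) : ℝ) = 1 ∨ ((u : ℤ) : ℝ) = -1 := by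
  rcases Int.units_eq_one_or u with h | h <;> simp [h]

/-- real signs to units -/
theorem exists_units {n : ℕ} (x : Fin n → ℝ) (hx : ∀ i, x i = 1 ∨ x i = -1) :
    ∃ ε : Fin n → ℤˣ, ∀ i, ((ε i : ℤ) : ℝ) = x i := by
  classical
  refine ⟨fun i => if x i = 1 then 1 else -1, fun i => ?_⟩
  rcases hx i with h | h
  · simp [h]
  · have : x i ≠ 1 := by rw [h]; norm_num
    simp only [if_neg this]
    rw [h]
    norm_num

theorem transfer (m n t : ℕ) (S : Fin m → Finset (Fin n)) (B D : ℝ) (hS : DegreeLE S t)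
    (hD : 0 < D)
    (hB : ∀ I : Finset (Fin n), ∃ χ : Fin n → ℤˣ, ∀ j, |∑ i ∈ S j ∩ I, ((χ i : ℤ) : ℝ)| ≤ B) :
    2 ^ n * Real.exp (-(15200 * n / D ^ 2)) ≤ (count S (B + D * Real.sqrt t) : ℝ) := by
  classical
  rcases Nat.eq_zero_or_pos t with rfl | ht
  · -- all sets are empty
    have hemp : ∀ j, S j = ∅ := by
      intro j
      by_contra h
      obtain ⟨i, hi⟩ := Finset.nonempty_iff_ne_empty.2 h
      have h1 := hS i
      have h2 : j ∈ Finset.univ.filter (fun j => i ∈ S j) := by simp [hi]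
      have := Finset.card_pos.2 ⟨j, h2⟩
      omega
    have h1 : count S (B + D * Real.sqrt (0:ℕ)) = 2 ^ n := by
      unfold count
      have h2 : ∀ χ : Fin n → ℤˣ, ∀ j, |∑ i ∈ S j, ((χ i : ℤ) : ℝ)| ≤
          B + D * Real.sqrt (0:ℕ) := by
        intro χ j
        obtain ⟨χ', h'⟩ := hB ∅
        have h3 := h' j
        rw [hemp j] at h3 ⊢
        simp only [Finset.inter_empty, Finset.sum_empty, abs_zero, Nat.cast_zero,
          Real.sqrt_zero, mul_zero, add_zero] at h3 ⊢
        exact h3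
      rw [Nat.card_congr (Equiv.subtypeUnivEquiv h2)]
      simp
    rw [h1]
    push_cast
    have h4 : Real.exp (-(15200 * n / D ^ 2)) ≤ 1 := by
      rw [Real.exp_le_one_iff]
      have : 0 ≤ 15200 * (n:ℝ) / D ^ 2 := by positivity
      linarith
    have h5 : (0:ℝ) < 2 ^ n := by positivity
    nlinarith
  · have ht0 : (0:ℝ) < t := by exact_mod_cast ht
    have hst : 0 < Real.sqrt t := Real.sqrt_pos.2 ht0
    set a : Fin m → Fin n → ℝ := fun j i => if i ∈ S j then 1 / Real.sqrt t else 0 with ha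
    have hsum : ∀ (I : Finset (Fin n)) (x : Fin n → ℝ) (j : Fin m),
        ∑ i ∈ I, x i * a j i = (∑ i ∈ S j ∩ I, x i) / Real.sqrt t := by
      intro I x j
      rw [Finset.sum_div, Finset.inter_comm, ← Finset.filter_mem_eq_inter, Finset.sum_filter]
      refine Finset.sum_congr rfl fun i _ => ?_
      simp only [ha]
      split_ifs
      · ring
      · ring
    have h := Pool.Agent.Y774.KC.main_fun a (B / Real.sqrt t) D hD (fun i => by
      have h1 : ∀ j, a j i ^ 2 = if i ∈ S j then 1 / (t:ℝ) else 0 := by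
        intro j
        simp only [ha]
        split_ifs
        · rw [div_pow, one_pow, Real.sq_sqrt ht0.le]
        · norm_num
      simp_rw [h1]
      rw [← Finset.sum_filter, Finset.sum_const, nsmul_eq_mul, mul_one_div, div_le_one ht0]
      exact_mod_cast hS i) (fun Z => by
      obtain ⟨χ, hχ⟩ := hB Z
      refine ⟨fun i => ((χ i : ℤ) : ℝ), fun i => units_real _, fun j => ?_⟩
      rw [hsum, abs_div, abs_of_pos hst]
      exact div_le_div_of_nonneg_right (hχ j) hst.le)
    rw [Fintype.card_fin] at h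
    refine h.trans (le_of_eq ?_)
    unfold count
    congr 1
    apply Nat.card_congr
    apply Equiv.subtypeEquivRight
    intro χ
    refine forall_congr' fun j => ?_
    rw [hsum, Finset.inter_univ, abs_div, abs_of_pos hst, div_le_iff₀ hst, add_mul,
      div_mul_cancel₀ _ hst.ne']

theorem part2 (m n t : ℕ) (S : Fin m → Finset (Fin n)) (D : ℝ) (hS : DegreeLE S t)
    (hD : 0 < D) :
    2 ^ n * Real.exp (-(15200 * n / D ^ 2)) ≤ (count S (t + D * Real.sqrt t) : ℝ) := by
  classical
  refine transfer m n t S t D hS hD fun I => ?_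
  obtain ⟨x, hx, hx2⟩ := H294BF.l1_signing
    (fun (j : Fin m) (i : Fin n) => if i ∈ S j ∩ I then (1:ℝ) else 0) (t:ℝ) (by positivity)
    (fun i => by
      have h1 : ∀ j, |if i ∈ S j ∩ I then (1:ℝ) else 0| ≤ if i ∈ S j then (1:ℝ) else 0 := by
        intro j
        by_cases h2 : i ∈ S j <;> by_cases h3 : i ∈ I <;> simp [h2, h3]
      refine (Finset.sum_le_sum fun j _ => h1 j).trans ?_
      rw [← Finset.sum_filter, Finset.sum_const, nsmul_eq_mul, mul_one]
      exact_mod_cast hS i)
  obtain ⟨ε, hε⟩ := exists_units x hx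
  refine ⟨ε, fun j => ?_⟩
  refine le_trans (le_of_eq ?_) (hx2 j)
  congr 1
  simp only [ite_mul, one_mul, zero_mul]
  rw [← Finset.sum_filter, Finset.filter_mem_eq_inter, Finset.univ_inter]
  exact Finset.sum_congr rfl fun i _ => hε i

theorem part2' : ∃ C : ℝ, ∀ (m n t : ℕ) (S : Fin m → Finset (Fin n)) (D : ℝ), 1 ≤ t →
    DegreeLE S t → 0 < D → 2 ^ n * Real.exp (-(15200 * n / D ^ 2)) ≤
      (count S (C * (Real.sqrt t + (1 + Real.log t) ^ (3 / 2 : ℝ) *
        Real.sqrt (Real.log (1 + (min m n : ℕ)))) + D * Real.sqrt t) : ℝ) := by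
  classical
  obtain ⟨C, hC⟩ := Pool.Agent.Results.MP_e8ee11_co.BeckFialaIterFree.result
  refine ⟨C, fun m n t S D ht hS hD => transfer m n t S _ D hS hD fun I => ?_⟩
  have h := (hC m n t (n + 1) ht (by omega) (fun j => S j ∩ I) (fun i => by
    refine le_trans (Finset.card_le_card ?_) (hS i)
    intro j hj
    simp only [Finset.mem_filter, Finset.mem_univ, true_and, Finset.mem_inter] at hj ⊢
    exact hj.1) (fun j => by
    refine (Finset.card_le_univ _).trans ?_
    rw [Fintype.card_fin]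
    omega) 0 (fun _ => 0) (by simp)).1
  obtain ⟨χ, hχ, hχ2⟩ := h
  obtain ⟨ε, hε⟩ := exists_units (fun i => ((χ i : ℤ) : ℝ)) (fun i => by
    rcases hχ i with h | h <;> simp [h])
  refine ⟨ε, fun j => ?_⟩
  have h1 := hχ2 j
  simp only [Nat.cast_zero, mul_zero, zero_mul, zero_add, Function.iterate_one, sub_zero] at h1
  refine le_trans (le_of_eq ?_) h1
  congr 1
  exact Finset.sum_congr rfl fun i _ => hε i

theorem part3 :
    (∃ C : ℝ, 0 < C ∧ ∀ (n m t : ℕ) (S : Fin m → Finset (Fin n)), DegreeLE S t →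
      ∃ χ : Fin n → ℤ, (∀ i, χ i = 1 ∨ χ i = -1) ∧
        ∀ j, ((|∑ i ∈ S j, χ i| : ℤ) : ℝ) ≤ C * Real.sqrt t) ↔
    ∃ C : ℝ, 0 < C ∧ ∀ (n m t : ℕ) (S : Fin m → Finset (Fin n)), DegreeLE S t →
      ∀ D : ℝ, C ≤ D →
        2 ^ n * Real.exp (-(C * n / D ^ 2)) ≤ (count S (D * Real.sqrt t) : ℝ) := by
  classical
  constructor
  · rintro ⟨c, hc, h⟩
    refine ⟨max (2 * c) 60800, by positivity, fun n m t S hS D hD => ?_⟩
    have hD1 : 2 * c ≤ D := (le_max_left _ _).trans hD
    have hD0 : 0 < D := by linarith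
    have h1 := transfer m n t S (c * Real.sqrt t) (D - c) hS (by linarith) (fun I => by
      obtain ⟨χ, hχ, hχ2⟩ := h n m t (fun j => S j ∩ I) (fun i => by
        refine le_trans (Finset.card_le_card ?_) (hS i)
        intro j hj
        simp only [Finset.mem_filter, Finset.mem_univ, true_and, Finset.mem_inter] at hj ⊢
        exact hj.1)
      obtain ⟨ε, hε⟩ := exists_units (fun i => ((χ i : ℤ) : ℝ)) (fun i => by
        rcases hχ i with h | h <;> simp [h])
      refine ⟨ε, fun j => ?_⟩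
      have h1 := hχ2 j
      push_cast at h1
      refine le_trans (le_of_eq ?_) h1
      congr 1
      exact Finset.sum_congr rfl fun i _ => hε i)
    rw [show c * Real.sqrt t + (D - c) * Real.sqrt t = D * Real.sqrt t by ring] at h1
    refine le_trans ?_ h1
    apply mul_le_mul_of_nonneg_left _ (by positivity)
    apply Real.exp_le_exp.2
    apply neg_le_neg
    have h5 : D / 2 ≤ D - c := by linarith
    have h6 : (D / 2) ^ 2 ≤ (D - c) ^ 2 := pow_le_pow_left₀ (by positivity) h5 2
    have hn : (0:ℝ) ≤ n := by positivity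
    calc 15200 * (n:ℝ) / (D - c) ^ 2 ≤ 15200 * n / (D / 2) ^ 2 := by
          apply div_le_div_of_nonneg_left (by positivity) (by positivity) h6
      _ = 60800 * n / D ^ 2 := by
          field_simp
          ring
      _ ≤ max (2 * c) 60800 * n / D ^ 2 := by
          apply div_le_div_of_nonneg_right _ (by positivity)
          exact mul_le_mul_of_nonneg_right (le_max_right _ _) hn
  · rintro ⟨C, hC, h⟩
    refine ⟨C, hC, fun n m t S hS => ?_⟩
    have h1 := h n m t S hS C le_rfl
    have h2 : (0:ℝ) < count S (C * Real.sqrt t) := lt_of_lt_of_le (by positivity) h1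
    have h3 : 0 < count S (C * Real.sqrt t) := by exact_mod_cast h2
    unfold count at h3
    obtain ⟨⟨χ, hχ⟩⟩ := (Nat.card_pos_iff.1 h3).1
    refine ⟨fun i => (χ i : ℤ), fun i => ?_, fun j => ?_⟩
    · rcases Int.units_eq_one_or (χ i) with h | h <;> simp [h]
    · have := hχ j
      push_cast
      exact this

theorem result :
    (∀ (m n t : ℕ) (S : Fin m → Finset (Fin n)) (B D : ℝ), DegreeLE S t → 0 < D →
      (∀ I : Finset (Fin n), ∃ χ : Fin n → ℤˣ, ∀ j, |∑ i ∈ S j ∩ I, ((χ i : ℤ) : ℝ)| ≤ B) →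
      2 ^ n * Real.exp (-(15200 * n / D ^ 2)) ≤ (count S (B + D * Real.sqrt t) : ℝ)) ∧
    (∀ (m n t : ℕ) (S : Fin m → Finset (Fin n)) (D : ℝ), DegreeLE S t → 0 < D →
      2 ^ n * Real.exp (-(15200 * n / D ^ 2)) ≤ (count S (t + D * Real.sqrt t) : ℝ)) ∧
    (∃ C : ℝ, ∀ (m n t : ℕ) (S : Fin m → Finset (Fin n)) (D : ℝ), 1 ≤ t → DegreeLE S t →
      0 < D → 2 ^ n * Real.exp (-(15200 * n / D ^ 2)) ≤
        (count S (C * (Real.sqrt t + (1 + Real.log t) ^ (3 / 2 : ℝ) *
          Real.sqrt (Real.log (1 + (min m n : ℕ)))) + D * Real.sqrt t) : ℝ)) ∧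
    ((∃ C : ℝ, 0 < C ∧ ∀ (n m t : ℕ) (S : Fin m → Finset (Fin n)), DegreeLE S t →
        ∃ χ : Fin n → ℤ, (∀ i, χ i = 1 ∨ χ i = -1) ∧
          ∀ j, ((|∑ i ∈ S j, χ i| : ℤ) : ℝ) ≤ C * Real.sqrt t) ↔
      ∃ C : ℝ, 0 < C ∧ ∀ (n m t : ℕ) (S : Fin m → Finset (Fin n)), DegreeLE S t →
        ∀ D : ℝ, C ≤ D →
          2 ^ n * Real.exp (-(C * n / D ^ 2)) ≤ (count S (D * Real.sqrt t) : ℝ)) :=
  ⟨transfer, part2, part2', part3⟩

end Pool.Agent.Results.MP_e8ee11_co.ColouringsCount
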