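import Mathlib
import Pool.Agent.Y963.BF.Lin

/-!
# The Beck-Fiala problem: small traces suffice

Let `S_1, …, S_m` be sets in `[n]` of maximum degree at most `t`, `p` a nonnegative weight on `[n]`
and `0 < ε ≤ 1/2`. Call a set `X ⊆ [n]` small if `p (X) ≤ ε p ([n])`.

(1) If for every small `X` the traces `S_i ∩ X` can be coloured with `|χ (S_i ∩ X)| ≤ B_i` for all
`i`, then the whole system can be coloured with
`|χ (S_i)| ≤ C (√t + (1 + log t)^(3/2) √(log (1 / ε))) + 2 B_i`, which is at most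
`C √t + 2 B_i` if `ε ≥ exp (- 1 - t / (1 + log t)^3)`.

(2) The hypothesis holds if every nonempty small `X` has fewer than `|X|` indices `i` with
`|S_i ∩ X| > B_i`.
-/

set_option autoImplicit false

namespace Pool.Agent.Results.MP_e8ee11_co.SmallTraces

open Finset Pool.Agent.Y963.BF

/-- `(1 + log t)^(3/2) ≤ 6 √t` -/
theorem log_pow_le (t : ℝ) (ht : 1 ≤ t) :
    (1 + Real.log t) ^ (3 / 2 : ℝ) ≤ 6 * Real.sqrt t := by
  have ht0 : 0 < t := by linarith
  set c : ℝ := t ^ (1 / 3 : ℝ) with hc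
  have hc0 : 0 < c := Real.rpow_pos_of_pos ht0 _
  have hl : Real.log t = 3 * Real.log c := by
    rw [hc, Real.log_rpow ht0]; ring
  have h1 : 1 + Real.log t ≤ 3 * c := by
    have := Real.log_le_sub_one_of_pos hc0
    rw [hl]; linarith
  have hlt : 0 ≤ Real.log t := Real.log_nonneg ht
  calc (1 + Real.log t) ^ (3 / 2 : ℝ) ≤ (3 * c) ^ (3 / 2 : ℝ) :=
        Real.rpow_le_rpow (by linarith) h1 (by norm_num)
    _ = 3 ^ (3 / 2 : ℝ) * Real.sqrt t := by
        rw [Real.mul_rpow (by norm_num) hc0.le, hc, ← Real.rpow_mul ht0.le,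
          Real.sqrt_eq_rpow]
        norm_num
    _ ≤ 6 * Real.sqrt t := by
        gcongr
        have h5 : (3 : ℝ) ^ (3 / 2 : ℝ) = 3 * Real.sqrt 3 := by
          rw [show (3 / 2 : ℝ) = 1 + 1 / 2 by norm_num, Real.rpow_add (by norm_num),
            Real.rpow_one, ← Real.sqrt_eq_rpow]
        have h6 : Real.sqrt 3 ≤ 2 := by
          rw [Real.sqrt_le_left (by norm_num)]
          norm_num
        linarith

theorem fin_le (t ε : ℝ) (ht : 1 ≤ t)
    (hε : Real.exp (-1 - t / (1 + Real.log t) ^ 3) ≤ ε) :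
    H167KL.fin t ε ≤ 7000000 * Real.sqrt t := by
  have hlt : 0 ≤ Real.log t := Real.log_nonneg ht
  have hst : 1 ≤ Real.sqrt t := Real.one_le_sqrt.2 ht
  set q : ℝ := (1 + Real.log t) ^ (3 / 2 : ℝ) with hq
  have hq0 : 0 < q := Real.rpow_pos_of_pos (by linarith) _
  have hq2 : q ^ 2 = (1 + Real.log t) ^ 3 := by
    rw [hq, ← Real.rpow_natCast, ← Real.rpow_mul (by linarith), ← Real.rpow_natCast]
    norm_num
  have h1 : Real.log (1 / ε) ≤ 1 + t / (1 + Real.log t) ^ 3 := by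
    have h2 := Real.log_le_log (Real.exp_pos _) hε
    rw [Real.log_exp] at h2
    rw [one_div, Real.log_inv]
    linarith
  have h3 : Real.sqrt (Real.log (1 / ε)) ≤ 1 + Real.sqrt t / q := by
    refine Real.sqrt_le_iff.2 ⟨by positivity, h1.trans ?_⟩
    have e1 : (Real.sqrt t / q) ^ 2 = t / (1 + Real.log t) ^ 3 := by
      rw [div_pow, hq2, Real.sq_sqrt (by linarith)]
    have h4 : 0 ≤ Real.sqrt t / q := by positivity
    nlinarith
  have h5 : Real.sqrt (Real.log (1 / ε)) * q ≤ 7 * Real.sqrt t := by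
    calc Real.sqrt (Real.log (1 / ε)) * q ≤ (1 + Real.sqrt t / q) * q := by gcongr
      _ = q + Real.sqrt t := by field_simp
      _ ≤ _ := by
          have := log_pow_le t ht
          linarith
  unfold H167KL.fin
  nlinarith

theorem result : ∃ C : ℝ, ∀ (m n t : ℕ) (S : Fin m → Finset (Fin n)), 1 ≤ t →
    (∀ j, (univ.filter (fun i => j ∈ S i)).card ≤ t) →
    ∀ (p : Fin n → ℝ) (ε : ℝ) (B : Fin m → ℝ), (∀ j, 0 ≤ p j) → 0 < ε → ε ≤ 1 / 2 →
    ((∀ X : Finset (Fin n), ∑ j ∈ X, p j ≤ ε * ∑ j, p j →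
        ∃ χ : Fin n → ℤ, (∀ j, χ j = 1 ∨ χ j = -1) ∧
          ∀ i, |((∑ j ∈ S i ∩ X, χ j : ℤ) : ℝ)| ≤ B i) ∨
      ((∀ i, 0 ≤ B i) ∧ ∀ X : Finset (Fin n), X.Nonempty → ∑ j ∈ X, p j ≤ ε * ∑ j, p j →
        (univ.filter (fun i => B i < ((S i ∩ X).card : ℝ))).card < X.card)) →
    ∃ χ : Fin n → ℤ, (∀ j, χ j = 1 ∨ χ j = -1) ∧
      (∀ i, |((∑ j ∈ S i, χ j : ℤ) : ℝ)| ≤ C * (Real.sqrt t +
        (1 + Real.log t) ^ (3 / 2 : ℝ) * Real.sqrt (Real.log (1 / ε))) + 2 * B i) ∧
      (Real.exp (-1 - t / (1 + Real.log t) ^ 3) ≤ ε →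
        ∀ i, |((∑ j ∈ S i, χ j : ℤ) : ℝ)| ≤ C * Real.sqrt t + 2 * B i) := by
  classical
  refine ⟨7000000, fun m n t S ht hdeg p ε B hp hε0 hε hyp => ?_⟩
  have htR : (1 : ℝ) ≤ t := by exact_mod_cast ht
  set a : Fin m → Fin n → ℝ := fun i j => if j ∈ S i then 1 else 0 with ha
  have a1 : ∀ i j, |a i j| ≤ 1 := by intro i j; simp only [ha]; split_ifs <;> simp
  have hcol : ∀ j, ∑ i, a i j ^ 2 ≤ (t : ℝ) := by
    intro j
    have e : ∑ i, a i j ^ 2 = ((univ.filter (fun i => j ∈ S i)).card : ℝ) := by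
      rw [Finset.card_filter]
      push_cast
      refine sum_congr rfl fun i _ => ?_
      simp only [ha]
      split_ifs <;> simp
    rw [e]
    exact_mod_cast hdeg j
  have hfull : ∃ χ : Fin n → ℝ, (∀ j, χ j = 1 ∨ χ j = -1) ∧
      ∀ i, |∑ j, a i j * χ j| ≤ H167KL.fin t ε + 2 * B i := by
    rcases hyp with hyp | ⟨hB, hyp⟩
    · refine Lin.small a t ε htR a1 hcol hε0 hε p hp B fun X hX => ?_
      obtain ⟨χ, h1, h2⟩ := hyp X hX
      refine ⟨fun j => (χ j : ℝ), fun j => ?_, fun i => ?_⟩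
      · dsimp only
        rcases h1 j with h | h
        · left; rw [h]; norm_num
        · right; rw [h]; norm_num
      · have e : ∑ j ∈ X, a i j * (χ j : ℝ) = ((∑ j ∈ S i ∩ X, χ j : ℤ) : ℝ) := by
          push_cast
          simp only [ha, ite_mul, one_mul, zero_mul]
          rw [← Finset.sum_filter]
          refine Finset.sum_congr ?_ fun j _ => rfl
          ext j
          simp [and_comm]
        rw [e]
        exact h2 i
    · refine Lin.spots a t ε htR a1 hcol hε0 hε p hp B hB fun X hX hXp => ?_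
      have e : ∀ i, ∑ j ∈ X, |a i j| = ((S i ∩ X).card : ℝ) := by
        intro i
        have e2 : S i ∩ X = X.filter (fun j => j ∈ S i) := by ext j; simp [and_comm]
        rw [e2, Finset.card_filter]
        push_cast
        refine sum_congr rfl fun j _ => ?_
        simp only [ha]
        split_ifs <;> simp
      simp only [e]
      exact hyp X hX hXp
  obtain ⟨χ, h1, h2⟩ := hfull
  refine ⟨fun j => if χ j = 1 then 1 else -1, fun j => by dsimp only; split_ifs <;> simp, ?_⟩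
  have hχ : ∀ j, (((if χ j = 1 then 1 else -1 : ℤ)) : ℝ) = χ j := by
    intro j
    rcases h1 j with h | h
    · simp [h]
    · rw [if_neg (by rw [h]; norm_num), h]; norm_num
  have e2 : ∀ i, (((∑ j ∈ S i, (if χ j = 1 then 1 else -1 : ℤ)) : ℤ) : ℝ) =
      ∑ j, a i j * χ j := by
    intro i
    push_cast
    simp only [ha, ite_mul, one_mul, zero_mul]
    rw [← Finset.sum_filter]
    refine Finset.sum_congr (by ext j; simp) fun j _ => ?_
    have := hχ j
    push_cast at this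
    exact this
  have hst : 0 ≤ Real.sqrt (t : ℝ) := Real.sqrt_nonneg _
  refine ⟨fun i => ?_, fun hsc i => ?_⟩
  · rw [e2]
    refine (h2 i).trans ?_
    have h3 : 0 ≤ (1 + Real.log (t : ℝ)) ^ (3 / 2 : ℝ) * Real.sqrt (Real.log (1 / ε)) := by
      have := Real.log_nonneg htR
      positivity
    unfold H167KL.fin
    nlinarith
  · rw [e2]
    refine (h2 i).trans ?_
    have := fin_le t ε htR hsc
    linarith

end Pool.Agent.Results.MP_e8ee11_co.SmallTraces
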