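import Mathlib
import Pool.Agent.Y963.BF.Ran
import Pool.Agent.Y963.BF.Lin
import Pool.Agent.Y963.BF.Uni

/-!
# The Beck-Fiala problem for semi-random set systems

The `n` elements choose independent random sets `D_1, …, D_n` of indices in `[m]`, with
`P (R ⊆ D_j) ≤ (b / m) ^ |R|` for all `R` (for instance uniformly random sets of `b` indices).
Then an adversary chooses `t` and any system of sets `S_1, …, S_m` in which the element `j` lies in
at most `t` sets `S_i`, all with `i ∈ D_j`. With probability at least `1 - n b^8 / (2 m^7)` all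
these systems have discrepancy at most
`C (√t + (1 + log t)^(3/2) √(1 + log (b max (1, n / m))))`.
-/

set_option autoImplicit false

namespace Pool.Agent.Results.MP_e8ee11_co.SpreadColumns

open Finset Pool.Agent.Y963.BF

/-- For every `j` a probability distribution `q j` on the sets of indices in `[m]`, with
`P (R ⊆ D) ≤ (b / m) ^ |R|` for all `R`. -/
def Spread {m n : ℕ} (q : Fin n → Finset (Fin m) → ℝ) (b : ℝ) : Prop :=
  (∀ j D, 0 ≤ q j D) ∧ (∀ j, ∑ D, q j D = 1) ∧
    ∀ j (R : Finset (Fin m)), ∑ D ∈ univ.filter (fun D => R ⊆ D), q j D ≤ (b / m) ^ R.card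

/-- The system `S` has discrepancy at most `K`. -/
def DiscLE {m n : ℕ} (S : Fin m → Finset (Fin n)) (K : ℝ) : Prop :=
  ∃ χ : Fin n → ℤ, (∀ j, χ j = 1 ∨ χ j = -1) ∧ ∀ i, |((∑ j ∈ S i, χ j : ℤ) : ℝ)| ≤ K

/-- Every system of `m` sets on `n` elements, such that each element `j` lies in at most `t` of
the sets, and only in sets with an index in `D j`, has discrepancy at most
`C (√t + (1 + log t)^(3/2) √(1 + log (b max (1, n / m))))`, for all `t ≥ 1`. -/
def Good {m n : ℕ} (C b : ℝ) (D : Fin n → Finset (Fin m)) : Prop :=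
  ∀ (t : ℕ) (S : Fin m → Finset (Fin n)), 1 ≤ t → (∀ i j, j ∈ S i → i ∈ D j) →
    (∀ j, (univ.filter (fun i => j ∈ S i)).card ≤ t) →
    DiscLE S (C * (Real.sqrt t + (1 + Real.log t) ^ (3 / 2 : ℝ) *
      Real.sqrt (1 + Real.log (b * max 1 ((n : ℝ) / m)))))

theorem good {m n : ℕ} (b : ℝ) (hb : 1 ≤ b) (D : Fin n → Finset (Fin m))
    (hD : ¬ Ran.Bad (Uni.K m n b) D) : Good 1410000 b D := by
  classical
  intro t S ht hS hdeg
  have htR : (1 : ℝ) ≤ t := by exact_mod_cast ht
  obtain ⟨χ, h1, h2⟩ := Uni.sign D b hb hD (fun i j => if j ∈ S i then 1 else 0) t htR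
    (by intro i j; split_ifs <;> simp)
    (by
      intro j
      have e : ∑ i, (if j ∈ S i then (1 : ℝ) else 0) ^ 2 =
          ((univ.filter (fun i => j ∈ S i)).card : ℝ) := by
        rw [Finset.card_filter]
        push_cast
        refine sum_congr rfl fun i _ => ?_
        split_ifs <;> simp
      rw [e]
      exact_mod_cast hdeg j)
    (by
      intro i j hij
      rw [if_neg fun h => hij (hS i j h)])
  refine ⟨fun j => if χ j = 1 then 1 else -1, fun j => by dsimp only; split_ifs <;> simp,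
    fun i => ?_⟩
  have hχ : ∀ j, (((if χ j = 1 then 1 else -1 : ℤ)) : ℝ) = χ j := by
    intro j
    rcases h1 j with h | h
    · simp [h]
    · rw [if_neg (by rw [h]; norm_num), h]; norm_num
  have e2 : (((∑ j ∈ S i, (if χ j = 1 then 1 else -1 : ℤ)) : ℤ) : ℝ) =
      ∑ j, (if j ∈ S i then (1 : ℝ) else 0) * χ j := by
    push_cast
    simp only [ite_mul, one_mul, zero_mul]
    rw [← Finset.sum_filter]
    refine Finset.sum_congr (by ext j; simp) fun j _ => ?_
    have := hχ j
    push_cast at this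
    exact this
  rw [e2]
  refine (h2 i).trans ?_
  have h3 : 0 ≤ Real.sqrt t := Real.sqrt_nonneg _
  nlinarith

open Classical in
theorem result : ∃ C : ℝ, ∀ (m n : ℕ), 1 ≤ m → 1 ≤ n →
    (∀ (b : ℝ) (q : Fin n → Finset (Fin m) → ℝ), 1 ≤ b → Spread q b →
      ∑ D ∈ univ.filter (fun D => ¬ Good C b D), ∏ j, q j (D j) ≤ n * b ^ 8 / (2 * m ^ 7)) ∧
    ∀ b : ℕ, 1 ≤ b → b ≤ m →
      ((univ.filter (fun D : Fin n → Finset (Fin m) =>
        (∀ j, (D j).card = b) ∧ ¬ Good C b D)).card : ℝ) ≤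
        n * b ^ 8 / (2 * m ^ 7) * (m.choose b : ℝ) ^ n := by
  refine ⟨1410000, fun m n hm hn => ?_⟩
  have key : ∀ (b : ℝ) (q : Fin n → Finset (Fin m) → ℝ), 1 ≤ b → Spread q b →
      ∑ D ∈ univ.filter (fun D => ¬ Good 1410000 b D), ∏ j, q j (D j) ≤
        n * b ^ 8 / (2 * m ^ 7) := by
    intro b q hb hq
    have h1 := Ran.union_bound q hq.1 b hb hm hn hq.2.2 (Uni.K m n b) (Uni.K_le m n b hb)
    refine le_trans (Finset.sum_le_sum_of_subset_of_nonneg ?_ ?_) (h1.trans (le_of_eq ?_))
    · intro D hD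
      refine mem_filter.2 ⟨mem_univ _, ?_⟩
      by_contra h
      exact (mem_filter.1 hD).2 (good b hb D h)
    · intro D _ _
      exact prod_nonneg fun j _ => hq.1 j _
    · ring
  refine ⟨key, fun b hb hbm => ?_⟩
  refine Uni.count _ b hbm _ (key b (fun _ => Uni.unif m b) (by exact_mod_cast hb)
    ⟨fun _ D => Uni.unif_nonneg b D, fun _ => Uni.unif_sum b hbm,
      fun _ R => Uni.unif_spread b hm hbm R⟩)

end Pool.Agent.Results.MP_e8ee11_co.SpreadColumns
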