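import Pool.Agent.Y422.TG.Disc

/-!
# Discrepancy of set systems of small twin-width

Let the incidence graph of a set system contain no `K_{s,t}` (in either direction) and have
twin-width at most `w`. Then the hereditary discrepancy of the system is at most
`2 (t + 2 s (w + 1))`, whatever the degrees and the sizes of the sets are.

The number of incidences between `a` elements and `b` sets is at most `(t + 2 s (w + 1)) (a + b)`, so
among any `a ≥ 1` elements fewer than `a` sets have more than `2 (t + 2 s (w + 1))` of them; now one
uses the Hall type signing theorem of the starting files.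
-/

set_option autoImplicit false

namespace Pool.Agent.Results.MP_e8ee11_co.TwinWidthSystems

open Pool.Agent.Y422.TW

/-- The incidence graph of the sets `S j`: its vertices are the elements and the indices of the sets,
an element `x` and an index `j` are adjacent if `x ∈ S j`, and there are no other edges. -/
def incidence {n m : ℕ} (S : Fin m → Finset (Fin n)) : SimpleGraph (Fin n ⊕ Fin m) where
  Adj a b := ∃ (x : Fin n) (j : Fin m), x ∈ S j ∧
    ((a = Sum.inl x ∧ b = Sum.inr j) ∨ (a = Sum.inr j ∧ b = Sum.inl x))
  symm := (Pool.Agent.Y422.TG.Disc.incidence S).symm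
  loopless := (Pool.Agent.Y422.TG.Disc.incidence S).loopless

/-- **Main result.** -/
theorem result : ∀ (n m : ℕ) (S : Fin m → Finset (Fin n)) (s t w : ℕ), 1 ≤ s →
    (completeBipartiteGraph (Fin s) (Fin t)).Free (incidence S) →
    TwinWidthLE (incidence S) w → ∀ X : Finset (Fin n),
    ∃ χ : Fin n → ℤ, (∀ i, χ i = 1 ∨ χ i = -1) ∧
      ∀ j, |∑ i ∈ S j ∩ X, χ i| ≤ 2 * ((t : ℤ) + 2 * s * (w + 1)) :=
  fun _ _ S s t w hs hfree h X => Pool.Agent.Y422.TG.Disc.disc S w s t hs h hfree X

end Pool.Agent.Results.MP_e8ee11_co.TwinWidthSystems
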